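import Pool.Agent.Lib.MP_1d20a2_co.Leaves
import Pool.Agent.Lib.MP_1d20a2_co.Duality

set_option autoImplicit false

namespace Pool.Agent.Results.MP_1d20a2_co.LinearNSIS

open Pool.Agent.Lib.MP_1d20a2_co Finset

/-- Half-edges (darts) of a 4-valent graph on `n` crossings: the four half-edges at a crossing
are numbered cyclically, in the rotational order in which they leave it. -/
abbrev Dart (n : ℕ) : Type := Fin n × ZMod 4

/-- The next half-edge in the rotational order around the same crossing. -/
def rot (n : ℕ) : Equiv.Perm (Dart n) := (Equiv.refl (Fin n)).prodCongr (Equiv.addRight 1)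

/-- A 4-valent graph with a rotation system (a combinatorial map): a fixed-point-free involution
pairs the two half-edges of every edge. Loops and multiple edges are allowed. -/
structure Shadow (n : ℕ) where
  edge : Equiv.Perm (Dart n)
  edge_edge : ∀ d, edge (edge d) = d
  edge_ne : ∀ d, edge d ≠ d

variable {n : ℕ}

/-- The regions (faces): orbits of the face-tracing permutation, which crosses an edge to its
other half-edge and then turns to the next half-edge. -/
def Shadow.Region (D : Shadow n) : Type :=
  Quotient (Equiv.Perm.SameCycle.setoid (rot n * D.edge))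

/-- The region along which the half-edge `d` is traced. The two sides of the edge with
half-edges `d` and `edge d` are `region d` and `region (edge d)`. -/
def Shadow.region (D : Shadow n) (d : Dart n) : D.Region := Quotient.mk _ d

/-- The underlying simple graph on the crossings. -/
def Shadow.proj (D : Shadow n) : SimpleGraph (Fin n) :=
  SimpleGraph.fromRel fun v w => ∃ i j : ZMod 4, D.edge (v, i) = (w, j)

/-- The diagram is non-split: the projection is connected. -/
def Shadow.NonSplit (D : Shadow n) : Prop := D.proj.Connected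

/-- The map lies on the sphere: Euler characteristic `n - 2 n + F = 2`. -/
def Shadow.Spherical (D : Shadow n) : Prop := Nat.card D.Region = n + 2

/-- No crossing is a cut vertex: deleting a crossing leaves the other crossings connected. -/
def Shadow.NoCutVertex (D : Shadow n) : Prop :=
  ∀ v : Fin n, (D.proj.induce {w | w ≠ v}).Preconnected

/-- The dual graph on the regions: two regions are adjacent if they are the sides of an edge. -/
def Shadow.dual (D : Shadow n) : SimpleGraph D.Region :=
  SimpleGraph.fromRel fun f g => ∃ d, D.region d = f ∧ D.region (D.edge d) = g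

/-- No edge has both of its sides in `S`. -/
def Shadow.Indep (D : Shadow n) (S : Set D.Region) : Prop :=
  ∀ d, ¬ (D.region d ∈ S ∧ D.region (D.edge d) ∈ S)

/-- Deleting `S` from the dual graph leaves a connected graph. -/
def Shadow.NonSep (D : Shadow n) (S : Set D.Region) : Prop := (D.dual.induce Sᶜ).Connected

theorem rot_apply (v : Fin n) (i : ZMod 4) : rot n (v, i) = (v, i + 1) := rfl

theorem region_rot (D : Shadow n) (d : Dart n) : D.region (rot n d) = D.region (D.edge d) := by
  apply Quotient.sound
  have : rot n d = (rot n * D.edge) (D.edge d) := by simp [D.edge_edge]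
  rw [this]
  exact Equiv.Perm.sameCycle_apply_left.mpr (Equiv.Perm.SameCycle.refl _ _)

theorem region_edge (D : Shadow n) (v : Fin n) (i : ZMod 4) :
    D.region (D.edge (v, i)) = D.region (v, i + 1) := (region_rot D (v, i)).symm

theorem region_surj (D : Shadow n) (f : D.Region) : ∃ d, D.region d = f := Quotient.exists_rep f

theorem const_vertex (D : Shadow n) (h : D.NonSplit) {β : Type*} (x : Fin n → β)
    (hx : ∀ d : Dart n, x d.1 = x (D.edge d).1) (u v : Fin n) : x u = x v := by
  have := (D.proj.reachable_iff_reflTransGen u v).mp (h.preconnected u v)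
  induction this with
  | refl => rfl
  | @tail b c _ hab ih =>
    rw [ih]
    rcases ((SimpleGraph.fromRel_adj _ _ _).mp hab).2 with ⟨i, j, e⟩ | ⟨i, j, e⟩
    · have := hx (b, i); rw [e] at this; exact this
    · have := hx (c, i); rw [e] at this; exact this.symm

theorem const_region (D : Shadow n) (h : D.NonSplit) {β : Type*} (y : D.Region → β)
    (hy : ∀ d : Dart n, y (D.region d) = y (D.region (D.edge d))) (f g : D.Region) :
    y f = y g := by
  have s : ∀ v i, y (D.region (v, i + 1)) = y (D.region (v, i)) := fun v i => by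
    rw [← region_edge, ← hy]
  have z : ∀ d : Dart n, y (D.region d) = y (D.region (d.1, 0)) := by
    rintro ⟨v, i⟩
    have a1 := s v 0
    have a2 := s v (0 + 1)
    have a3 := s v (0 + 1 + 1)
    have : i = 0 ∨ i = 0 + 1 ∨ i = 0 + 1 + 1 ∨ i = 0 + 1 + 1 + 1 := by
      revert i; decide
    rcases this with rfl | rfl | rfl | rfl
    · rfl
    · exact a1
    · exact a2.trans a1
    · exact a3.trans (a2.trans a1)
  obtain ⟨d, rfl⟩ := region_surj D f
  obtain ⟨e, rfl⟩ := region_surj D g
  rw [z d, z e]
  exact const_vertex D h (fun v => y (D.region (v, 0))) (fun d => by rw [← z, ← z, ← hy]) _ _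

instance (D : Shadow n) : Finite D.Region := Quotient.finite _

theorem dual_adj (D : Shadow n) {f g : D.Region} :
    D.dual.Adj f g ↔ f ≠ g ∧ ∃ d, D.region d = f ∧ D.region (D.edge d) = g := by
  rw [Shadow.dual, SimpleGraph.fromRel_adj]
  refine and_congr_right fun _ => ⟨?_, Or.inl⟩
  rintro (h | ⟨d, a, b⟩)
  · exact h
  · exact ⟨D.edge d, b, by rw [D.edge_edge]; exact a⟩

theorem dual_connected (D : Shadow n) (h : D.NonSplit) : D.dual.Connected := by
  obtain ⟨v⟩ := h.nonempty
  have : Nonempty D.Region := ⟨D.region (v, 0)⟩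
  refine ⟨fun f g => SimpleGraph.ConnectedComponent.exact ?_⟩
  apply const_region D h D.dual.connectedComponentMk
  intro d
  by_cases e : D.region d = D.region (D.edge d)
  · rw [← e]
  · exact SimpleGraph.ConnectedComponent.sound
      (SimpleGraph.Adj.reachable ((dual_adj D).mpr ⟨e, d, rfl, rfl⟩))

theorem orth (D : Shadow n) (x : Fin n → ZMod 2) (y : D.Region → ZMod 2) :
    ∑ d : Dart n, (y (D.region d) + y (D.region (D.edge d))) * x d.1 = 0 := by
  have := Equiv.sum_comp (rot n) (fun d => y (D.region d) * x d.1)
  simp only [region_rot] at this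
  simp only [add_mul, sum_add_distrib]
  rw [← this]
  exact CharTwo.add_self_eq_zero _

theorem orth' (D : Shadow n) (y : D.Region → ZMod 2) (x : Fin n → ZMod 2) :
    ∑ d : Dart n, (x d.1 + x (D.edge d).1) * y (D.region d) = 0 := by
  have := Equiv.sum_comp D.edge (fun d => x (D.edge d).1 * y (D.region d))
  simp only [D.edge_edge] at this
  rw [← orth D x y]
  simp only [add_mul, sum_add_distrib]
  rw [← this]
  simp only [mul_comm]

theorem card_ineq (D : Shadow n) [Fintype D.Region] (hs : D.Spherical) :
    Fintype.card (Dart n) + 4 ≤ 2 * (Fintype.card (Fin n) + Fintype.card D.Region) := by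
  rw [← Nat.card_eq_fintype_card (α := D.Region), hs]
  simp
  omega

theorem exists_colouring (D : Shadow n) (hs : D.Spherical) (h : D.NonSplit) :
    ∃ y : D.Region → ZMod 2, ∀ d, 1 = y (D.region d) + y (D.region (D.edge d)) := by
  have := Fintype.ofFinite D.Region
  apply duality D.edge D.edge_edge D.edge_ne Prod.fst D.region (orth D)
    (const_vertex D h) (const_region D h) (card_ineq D hs) (fun _ => 1) (fun _ => rfl)
  intro x
  rw [Fintype.sum_prod_type]
  apply sum_eq_zero
  intro v _
  simp only [one_mul, sum_const, card_univ, ZMod.card]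
  generalize x v = a
  revert a
  decide

theorem kink (D : Shadow n) (hs : D.Spherical) (h : D.NonSplit) (hr : D.NoCutVertex)
    (v : Fin n) (i : ZMod 4) (e : D.region (v, i) = D.region (v, i + 1 + 1)) :
    D.edge (v, i) = (v, i + 1) ∨ D.edge (v, i + 1 + 1) = (v, i + 1 + 1 + 1) := by
  have := Fintype.ofFinite D.Region
  by_contra hn
  push Not at hn
  obtain ⟨n0, n2⟩ := hn
  have inv : ∀ a b : Dart n, D.edge a = b → D.edge b = a := fun a b hab => by
    rw [← hab, D.edge_edge]
  set z : Dart n → ZMod 2 := fun d => (if d = (v, i) then 1 else 0)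
    + (if d = D.edge (v, i) then 1 else 0) + (if d = (v, i + 1) then 1 else 0)
    + (if d = D.edge (v, i + 1) then 1 else 0) with hz
  have sw : ∀ a b : Dart n, D.edge a = b ↔ a = D.edge b := fun a b =>
    ⟨fun hab => (inv a b hab).symm, fun hab => inv b a hab.symm⟩
  obtain ⟨x, hx⟩ := duality D.edge D.edge_edge D.edge_ne D.region Prod.fst (orth' D)
    (const_region D h) (const_vertex D h) (by have := card_ineq D hs; omega) z
    (fun d => by simp only [hz, sw, D.edge_edge]; ring) (fun y => by
      simp only [hz, add_mul, sum_add_distrib, ite_mul, one_mul, zero_mul, sum_ite_eq', mem_univ,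
        if_true, region_edge]
      rw [← e]
      generalize y (D.region (v, i)) = a
      generalize y (D.region (v, i + 1)) = b
      revert a b
      decide)
  have i1 : i ≠ i + 1 := (by decide : ∀ i : ZMod 4, i ≠ i + 1) i
  have i2 : i + 1 + 1 ≠ i := (by decide : ∀ i : ZMod 4, i + 1 + 1 ≠ i) i
  have i3 : i + 1 + 1 ≠ i + 1 := (by decide : ∀ i : ZMod 4, i + 1 + 1 ≠ i + 1) i
  have x0 : x v + x (D.edge (v, i)).1 = 1 := by
    have := hx (v, i)
    simp only [hz] at this
    rw [if_pos trivial, if_neg (D.edge_ne _).symm, if_neg (fun h => i1 (Prod.ext_iff.mp h).2),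
      if_neg (fun h => n0 (inv _ _ h.symm))] at this
    rw [← this]; ring
  have x1 : x v + x (D.edge (v, i + 1)).1 = 1 := by
    have := hx (v, i + 1)
    simp only [hz] at this
    rw [if_neg (fun h => i1 (Prod.ext_iff.mp h).2.symm), if_neg n0.symm, if_pos trivial,
      if_neg (D.edge_ne _).symm] at this
    rw [← this]; ring
  have ne1 : ∀ w, x v + x w = 1 → w ≠ v := by
    rintro w hw rfl
    revert hw
    generalize x w = a
    revert a
    decide
  have w0 := ne1 _ x0
  have w1 := ne1 _ x1
  have x2 : x v + x (D.edge (v, i + 1 + 1)).1 = 0 := by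
    have := hx (v, i + 1 + 1)
    simp only [hz] at this
    rw [if_neg (fun h => i2 (Prod.ext_iff.mp h).2), if_neg (fun h => w0 (by rw [← h])),
      if_neg (fun h => i3 (Prod.ext_iff.mp h).2),
      if_neg (fun h => w1 (by rw [← h]))] at this
    rw [← this]; ring
  have w2 : (D.edge (v, i + 1 + 1)).1 ≠ v := by
    intro hv
    obtain ⟨j, hj⟩ : ∃ j, D.edge (v, i + 1 + 1) = (v, j) := ⟨_, Prod.ext hv rfl⟩
    have : j = i ∨ j = i + 1 ∨ j = i + 1 + 1 ∨ j = i + 1 + 1 + 1 := by
      clear * -
      revert i j; decide
    rcases this with rfl | rfl | rfl | rfl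
    · exact w0 (by rw [inv _ _ hj])
    · exact w1 (by rw [inv _ _ hj])
    · exact D.edge_ne _ hj
    · exact n2 hj
  have flat : ∀ d : Dart n, d.1 ≠ v → (D.edge d).1 ≠ v → x d.1 = x (D.edge d).1 := by
    intro d a b
    have := hx d
    simp only [hz] at this
    rw [if_neg (fun h => a (by rw [h])), if_neg (fun h => b (by rw [h, D.edge_edge])),
      if_neg (fun h => a (by rw [h])), if_neg (fun h => b (by rw [h, D.edge_edge]))] at this
    revert this
    generalize x d.1 = s
    generalize x (D.edge d).1 = t
    revert s t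
    decide
  have cst : ∀ a b : {w | w ≠ v}, x a = x b := by
    intro a b
    have := ((D.proj.induce {w | w ≠ v}).reachable_iff_reflTransGen a b).mp (hr v a b)
    induction this with
    | refl => rfl
    | @tail c d _ hab ih =>
      rw [ih]
      have hab' : D.proj.Adj c d := hab
      rcases ((SimpleGraph.fromRel_adj _ _ _).mp hab').2 with ⟨j, k, e⟩ | ⟨j, k, e⟩
      · have := flat (c, j) c.2 (by
          have e' : D.edge ((c : Fin n), j) = ((d : Fin n), k) := e
          rw [e']; exact d.2)
        have e' : D.edge ((c : Fin n), j) = ((d : Fin n), k) := e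
        rw [e'] at this; exact this
      · have e' : D.edge ((d : Fin n), j) = ((c : Fin n), k) := e
        have := flat (d, j) d.2 (by rw [e']; exact c.2)
        rw [e'] at this; exact this.symm
  have := cst ⟨_, w0⟩ ⟨_, w2⟩
  simp only at this
  rw [this, x2] at x0
  exact zero_ne_one x0

theorem pendant (D : Shadow n) (v : Fin n) (i : ZMod 4) (e : D.edge (v, i) = (v, i + 1))
    (t : D.Region) (ht : D.dual.Adj (D.region (v, i + 1)) t) : t = D.region (v, i) := by
  obtain ⟨-, d, a, b⟩ := (dual_adj D).mp ht
  have e' : D.edge (v, i + 1) = (v, i) := by rw [← e, D.edge_edge]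
  have fix : Function.IsFixedPt (rot n * D.edge) (v, i + 1) := by
    change rot n (D.edge (v, i + 1)) = _
    rw [e', rot_apply]
  have : d = (v, i + 1) := (Quotient.exact a : Equiv.Perm.SameCycle _ _ _).eq_of_right fix
  rw [← b, this, e']

theorem quad (D : Shadow n) (hs : D.Spherical) (h : D.NonSplit) (hr : D.NoCutVertex) :
    Quad D.dual := by
  obtain ⟨y, hy⟩ := exists_colouring D hs h
  have adj : ∀ v i, D.dual.Adj (D.region (v, i)) (D.region (v, i + 1)) := by
    intro v i
    refine (dual_adj D).mpr ⟨fun e => ?_, (v, i), rfl, region_edge D v i⟩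
    have := hy (v, i)
    rw [region_edge, ← e, CharTwo.add_self_eq_zero] at this
    exact one_ne_zero this
  intro f g hfg
  obtain ⟨-, ⟨v, i⟩, rfl, rfl⟩ := (dual_adj D).mp hfg
  rw [region_edge]
  have i4 : i + 1 + 1 + 1 + 1 = i := (by decide : ∀ i : ZMod 4, i + 1 + 1 + 1 + 1 = i) i
  by_cases c1 : D.region (v, i) = D.region (v, i + 1 + 1)
  · right; left
    rcases kink D hs h hr v i c1 with e | e
    · exact ⟨_, (adj v i).symm, pendant D v i e⟩
    · rw [c1]
      exact ⟨_, (adj v _).symm, pendant D v _ e⟩
  by_cases c2 : D.region (v, i + 1) = D.region (v, i + 1 + 1 + 1)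
  · right; right
    rcases kink D hs h hr v (i + 1) c2 with e | e
    · exact ⟨_, (adj v _).symm, pendant D v _ e⟩
    · rw [c2]
      exact ⟨_, (adj v _).symm, pendant D v _ e⟩
  left
  refine ⟨_, _, adj v (i + 1), adj v (i + 1 + 1), ?_, fun e => c1 e.symm, fun e => c2 e.symm⟩
  have := adj v (i + 1 + 1 + 1)
  rwa [i4] at this

/-- The dual graph of a connected 4-valent plane graph on `n` vertices with no cut vertex has a
non-separating independent set with at least `(n + 1) / 14` vertices. -/
theorem result (n : ℕ) (D : Shadow n) (hs : D.Spherical) (h : D.NonSplit)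
    (hr : D.NoCutVertex) :
    ∃ S : Set D.Region, D.Indep S ∧ D.NonSep S ∧ n + 1 ≤ 14 * S.ncard := by
  classical
  have := Fintype.ofFinite D.Region
  obtain ⟨y, hy⟩ := exists_colouring D hs h
  obtain ⟨S, c, h1, h2, h3⟩ := exists_nonsep D.dual (dual_connected D h) (quad D hs h hr) y
  refine ⟨S, fun d hd => ?_, h2, ?_⟩
  · have := hy d
    rw [h1 _ hd.1, h1 _ hd.2, CharTwo.add_self_eq_zero] at this
    exact one_ne_zero this
  · rw [← Nat.card_eq_fintype_card, hs] at h3
    rw [Set.ncard_coe_finset]
    omega

end Pool.Agent.Results.MP_1d20a2_co.LinearNSIS
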